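import Mathlib
import Pool.Agent.W179.ST

set_option autoImplicit false

/-! # Semi-transitive `k`-critical graphs of girth exactly `g`, for all `4 ≤ g ≤ k` -/

namespace Pool.Agent.Results.MP_2d3ccd_co.CriticalOfGirthAtMostK

open Pool.Agent.W179.Erdos Pool.Agent.W179.ST

/-- `R` is a semi-transitive orientation of `G`: every edge is oriented in exactly one direction,
there is no directed cycle, and whenever a directed path `p 0 → p 1 → ... → p t` with `t ≥ 2` is
shortcut by the edge `p 0 → p t`, all the edges `p i → p j`, `0 ≤ i < j ≤ t`, are present. -/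
def IsSemiTransitiveOrientation {V : Type} (G : SimpleGraph V) (R : V → V → Prop) : Prop :=
  (∀ u v, G.Adj u v ↔ R u v ∨ R v u) ∧ (∀ u v, R u v → ¬ R v u) ∧
  (∀ v, ¬ Relation.TransGen R v v) ∧
  ∀ (t : ℕ) (p : ℕ → V), 2 ≤ t → (∀ i, i < t → R (p i) (p (i + 1))) → R (p 0) (p t) →
    ∀ i j, i < j → j ≤ t → R (p i) (p j)

/-- `G` is semi-transitive: it has a semi-transitive orientation. -/
def IsSemiTransitive {V : Type} (G : SimpleGraph V) : Prop :=
  ∃ R : V → V → Prop, IsSemiTransitiveOrientation G R

/-- `G` is `k`-critical: its chromatic number is `k` and every proper subgraph has a smaller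
chromatic number. -/
def IsCritical {V : Type} (k : ℕ) (G : SimpleGraph V) : Prop :=
  G.chromaticNumber = k ∧ ∀ S : G.Subgraph, S ≠ ⊤ → S.coe.chromaticNumber < k

/-- the cycle of length `r` on the first `r` vertices of `Fin k` -/
def CG (k r : ℕ) : SimpleGraph (Fin k) where
  Adj i j := i ≠ j ∧ ((i.val + 1 = j.val ∧ j.val < r) ∨ (j.val + 1 = i.val ∧ i.val < r) ∨
    (i.val = 0 ∧ j.val + 1 = r) ∨ (j.val = 0 ∧ i.val + 1 = r))
  symm := ⟨fun i j h => ⟨h.1.symm, by
    rcases h.2 with h | h | h | h
    · exact Or.inr (Or.inl h)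
    · exact Or.inl h
    · exact Or.inr (Or.inr (Or.inr h))
    · exact Or.inr (Or.inr (Or.inl h))⟩⟩
  loopless := ⟨fun i h => h.1 rfl⟩

/-- every cycle of `CG k r` has length at least `r` -/
theorem cg_long {k r l : ℕ} {a : ℕ → Fin k} (h : FCyc (CG k r) l a) : r ≤ l := by
  by_contra hlt
  push Not at hlt
  have h3 := h.three
  have hr : ∀ i < l, (a i).val < r := by
    intro i hi
    have h1 := (FCyc.step h i hi).2
    omega
  -- a missed position
  obtain ⟨v, hv, hv'⟩ : ∃ v < r, ∀ i < l, (a i).val ≠ v := by
    by_contra hcon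
    push Not at hcon
    have h1 : Finset.range r ⊆ (Finset.range l).image (fun i => (a i).val) := by
      intro v hv
      obtain ⟨i, hi, hi'⟩ := hcon v (Finset.mem_range.mp hv)
      exact Finset.mem_image.mpr ⟨i, Finset.mem_range.mpr hi, hi'⟩
    have h2 := (Finset.card_le_card h1).trans Finset.card_image_le
    simp only [Finset.card_range] at h2
    omega
  obtain ⟨t, ht, hmax⟩ := Finset.exists_max_image (Finset.range l)
    (fun i => if v < (a i).val then (a i).val - v - 1 else (a i).val + r - v - 1)
    ⟨0, Finset.mem_range.mpr (by omega)⟩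
  rw [Finset.mem_range] at ht
  -- the two neighbours
  have h1 := (FCyc.step h t ht).2
  have hp : (t + l - 1) % l < l := Nat.mod_lt _ (by omega)
  have hn : (t + 1) % l < l := Nat.mod_lt _ (by omega)
  have h2 := (FCyc.step h ((t + l - 1) % l) hp).2
  have e : ((t + l - 1) % l + 1) % l = t := by
    rw [Nat.mod_add_mod]
    have : t + l - 1 + 1 = t + l := by omega
    rw [this, Nat.add_mod_right, Nat.mod_eq_of_lt ht]
  rw [e] at h2
  have hne : (t + 1) % l ≠ (t + l - 1) % l := by
    by_cases h5 : t + 1 < l
    · rw [Nat.mod_eq_of_lt h5]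
      by_cases h6 : t = 0
      · subst h6
        rw [Nat.mod_eq_of_lt (by omega)]
        omega
      · have : t + l - 1 = (t - 1) + l := by omega
        rw [this, Nat.add_mod_right, Nat.mod_eq_of_lt (by omega)]
        omega
    · have h6 : t + 1 = l := by omega
      rw [h6, Nat.mod_self]
      have : t + l - 1 = (t - 1) + l := by omega
      rw [this, Nat.add_mod_right, Nat.mod_eq_of_lt (by omega)]
      omega
  have hm1 := hmax _ (Finset.mem_range.mpr hn)
  have hm2 := hmax _ (Finset.mem_range.mpr hp)
  have hne' : (a ((t + 1) % l)).val ≠ (a ((t + l - 1) % l)).val := by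
    intro h7
    exact hne (h.inj _ hn _ hp (Fin.ext h7))
  have v1 := hv' t ht
  have v2 := hv' _ hn
  have v3 := hv' _ hp
  have r1 := hr t ht
  have r2 := hr _ hn
  have r3 := hr _ hp
  generalize (a ((t + 1) % l)).val = A at *
  generalize (a ((t + l - 1) % l)).val = B at *
  generalize (a t).val = T at *
  split_ifs at hm1 hm2 <;> omega

theorem cg_fcyc {k r : ℕ} (h3 : 3 ≤ r) (_hrk : r ≤ k) (a : ℕ → Fin k)
    (ha : ∀ i < r, (a i).val = i) : FCyc (CG k r) r a := by
  refine ⟨h3, ?_, ?_, ?_⟩
  · intro i hi j hj hij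
    rw [← ha i hi, ← ha j hj, hij]
  · intro i hi
    have h1 := ha i (by omega)
    have h2 := ha (i + 1) hi
    refine ⟨?_, Or.inl ⟨by omega, by omega⟩⟩
    intro h
    rw [h] at h1
    omega
  · have h1 := ha (r - 1) (by omega)
    have h2 := ha 0 (by omega)
    refine ⟨?_, Or.inr (Or.inr (Or.inr ⟨h2, by omega⟩))⟩
    intro h
    rw [h] at h1
    omega

/-- an ordering of the vertices in which no three consecutive steps along the cycle go up -/
theorem exists_sigma {k r : ℕ} (h4 : 4 ≤ r) (hrk : r ≤ k) : ∃ σ : Fin k → Fin k,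
    Function.Injective σ ∧ ∀ a b c : Fin k, (CG k r).Adj a b → (CG k r).Adj b c → σ a < σ b →
      σ b < σ c → b.val + 1 = r := by
  refine ⟨fun i => if h : i.val < r then (if h2 : i.val % 2 = 0 then ⟨i.val / 2, by omega⟩ else
    ⟨(r + 1) / 2 + i.val / 2, by omega⟩) else i, ?_, ?_⟩
  · intro i j hij
    apply Fin.ext
    have hij' := congrArg Fin.val hij
    beta_reduce at hij'
    split_ifs at hij' <;> (try simp only at hij') <;> omega
  · intro a b c h1 h2 h3 h5
    have h1' := h1.2
    have h2' := h2.2
    rw [Fin.lt_def] at h3 h5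
    beta_reduce at h3 h5
    split_ifs at h3 h5 <;> (try simp only at h3) <;> (try simp only at h5) <;> omega

/-- identification of two colours -/
theorem exists_merge {k : ℕ} (i j : Fin k) (hij : i ≠ j) : ∃ σ : Fin k → Fin (k - 1),
    ∀ a b, σ a = σ b → a = b ∨ (a = i ∧ b = j) ∨ (a = j ∧ b = i) := by
  classical
  have hc : Fintype.card {a : Fin k // a ≠ j} = k - 1 := by
    rw [Fintype.card_subtype_compl, Fintype.card_fin, Fintype.card_subtype_eq]
  let e := Fintype.equivFinOfCardEq hc
  refine ⟨fun a => if h : a = j then e ⟨i, hij⟩ else e ⟨a, h⟩, ?_⟩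
  intro a b hab
  by_cases ha : a = j
  · by_cases hb : b = j
    · left; rw [ha, hb]
    · simp only [dif_pos ha, dif_neg hb] at hab
      have := congrArg Subtype.val (e.injective hab)
      right; right
      exact ⟨ha, this.symm⟩
  · by_cases hb : b = j
    · simp only [dif_neg ha, dif_pos hb] at hab
      have := congrArg Subtype.val (e.injective hab)
      right; left
      exact ⟨this, hb⟩
    · simp only [dif_neg ha, dif_neg hb] at hab
      have := congrArg Subtype.val (e.injective hab)
      left
      exact this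

/-- For all `4 ≤ g ≤ k` there is a finite semi-transitive graph which is `k`-critical (in
particular of chromatic number `k`) and has girth exactly `g`. -/
theorem result : ∀ k g : ℕ, 4 ≤ g → g ≤ k → ∃ (V : Type) (_ : Finite V) (G : SimpleGraph V),
    IsCritical k G ∧ G.girth = g ∧ IsSemiTransitive G := by
  classical
  intro k r h4 hrk
  obtain ⟨V, hV, D, Hf, x, y, hle, hxy, hnD, ⟨φ, hφ⟩, hall, hg⟩ := exists_gadget (k - 1) k (by omega)
  let C := CG k r
  let G := GG C C D x y
  have hxne : x ≠ y := hxy.ne
  have hGn : ¬ G.Colorable (k - 1) := not_col C D x y (by omega) hall hxne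
  -- a minimal subgraph
  obtain ⟨S, hS, hmin⟩ := (wellFounded_lt (α := G.Subgraph)).has_min
    {S | ¬ S.coe.Colorable (k - 1)} ⟨⊤, by
      intro h
      apply hGn
      exact h.of_hom ⟨fun v => ⟨v, trivial⟩, fun h => h⟩⟩
  have hS' : ¬ S.coe.Colorable (k - 1) := hS
  obtain ⟨σ, hσ, hσ'⟩ := exists_sigma h4 hrk
  obtain ⟨κ, hκ⟩ := colour_ext C C D x y (Nat.sub_le k 1) φ hφ σ
    (fun i j h he => (C.ne_of_adj h) (hσ he)) (fun i j h _ he => h (hσ he))
  have hcolk : S.coe.Colorable k := ⟨κ.comp S.hom⟩
  have hchi : S.coe.chromaticNumber = (k : ℕ∞) := by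
    apply le_antisymm (SimpleGraph.chromaticNumber_le_iff_colorable.mpr hcolk)
    by_contra h
    push Not at h
    apply hS'
    rw [← SimpleGraph.chromaticNumber_le_iff_colorable]
    have e : ((k - 1 + 1 : ℕ) : ℕ∞) = ((k - 1 : ℕ) : ℕ∞) + 1 := Nat.cast_add_one (k - 1)
    rw [show k - 1 + 1 = k by omega] at e
    rw [e] at h
    exact Order.le_of_lt_add_one h
  have hcrit : IsCritical k S.coe := by
    refine ⟨hchi, fun T hT => ?_⟩
    have h1 : SimpleGraph.Subgraph.coeSubgraph T ≤ S := SimpleGraph.Subgraph.coeSubgraph_le T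
    have h2 : SimpleGraph.Subgraph.coeSubgraph T ≠ S := by
      intro h
      apply hT
      have h5 := SimpleGraph.Subgraph.restrict_coeSubgraph T
      rw [h] at h5
      rw [← h5]
      ext a b
      · simp
      · simp only [SimpleGraph.Subgraph.restrict_adj, and_self, SimpleGraph.Subgraph.top_adj]
        rfl
    have h3 : (SimpleGraph.Subgraph.coeSubgraph T).coe.Colorable (k - 1) := by
      by_contra h
      exact hmin _ h (lt_of_le_of_ne h1 h2)
    have h6 : T.coe.Colorable (k - 1) := by
      refine h3.of_hom ⟨fun v => ⟨v.1.1, ⟨v.1, v.2, rfl⟩⟩, ?_⟩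
      intro a b hab
      exact ⟨a.1, b.1, hab, rfl, rfl⟩
    refine lt_of_le_of_lt (SimpleGraph.chromaticNumber_le_iff_colorable.mpr h6) ?_
    exact_mod_cast (by omega : k - 1 < k)
  -- the edges of the cycle belong to `S`
  have hedge : ∀ i j, C.Adj i j → S.Adj (Sum.inl i) (Sum.inl j) := by
    intro i j hij
    by_contra hn
    apply hS'
    obtain ⟨σ', hσ1⟩ := exists_merge i j (C.ne_of_adj hij)
    let C' : SimpleGraph (Fin k) := C.deleteEdges {s(i, j)}
    obtain ⟨κ', -⟩ := colour_ext C C' D x y le_rfl φ hφ σ'
      (by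
        intro a b hab he
        rw [SimpleGraph.deleteEdges_adj] at hab
        rcases hσ1 a b he with h | ⟨rfl, rfl⟩ | ⟨rfl, rfl⟩
        · exact C.ne_of_adj hab.1 h
        · exact hab.2 rfl
        · exact hab.2 (by rw [Sym2.eq_swap]; rfl))
      (by
        intro a b hab hC he
        rcases hσ1 a b he with h | ⟨rfl, rfl⟩ | ⟨rfl, rfl⟩
        · exact hab h
        · exact hC hij
        · exact hC hij.symm)
    refine SimpleGraph.Colorable.of_hom (G' := GG C C' D x y) ⟨fun v => v.1, ?_⟩ ⟨κ'⟩
    rintro ⟨a, ha⟩ ⟨b, hb⟩ hab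
    have hab' : S.Adj a b := hab
    have hG : G.Adj a b := S.adj_sub hab'
    show GAdj C C' D x y a b
    rcases a with a | ⟨p, w⟩ <;> rcases b with b | ⟨p', w'⟩
    · show C'.Adj a b
      rw [SimpleGraph.deleteEdges_adj]
      refine ⟨hG, ?_⟩
      intro he
      rcases Sym2.eq_iff.mp he with ⟨rfl, rfl⟩ | ⟨rfl, rfl⟩
      · exact hn hab'
      · exact hn hab'.symm
    · exact hG
    · exact hG
    · exact hG
  -- short cycles
  have hshort : ∀ l (f : ℕ → S.verts), FCyc S.coe l f → l ≤ k → ∃ a : ℕ → Fin k,
      FCyc C l a ∧ ∀ i < l, (f i).1 = Sum.inl (a i) := by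
    intro l f h hl
    have h1 : FCyc G l (fun i => (f i).1) :=
      FCyc.map h (fun v => v.1) Subtype.val_injective (fun u v huv => S.adj_sub huv)
    have h2 := short C C D x y hle hxy hnD hg h1 hl
    have h3 := h.three
    choose a ha using h2
    refine ⟨fun i => if hi : i < l then a i hi else a 0 (by omega), ?_, ?_⟩
    · have key : ∀ i (hi : i < l), (if hi : i < l then a i hi else a 0 (by omega)) = a i hi :=
        fun i hi => dif_pos hi
      refine ⟨h3, ?_, ?_, ?_⟩
      · intro i hi j hj hij
        rw [key i hi, key j hj] at hij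
        apply h1.inj i hi j hj
        show (f i).1 = (f j).1
        rw [ha i hi, ha j hj, hij]
      · intro i hi
        rw [key i (by omega), key (i + 1) hi]
        have h5 := h1.adj i hi
        have h6 : G.Adj (f i).1 (f (i + 1)).1 := h5
        rw [ha i (by omega), ha (i + 1) hi] at h6
        exact h6
      · rw [key (l - 1) (by omega), key 0 (by omega)]
        have h6 : G.Adj (f (l - 1)).1 (f 0).1 := h1.close
        rw [ha (l - 1) (by omega), ha 0 (by omega)] at h6
        exact h6
    · intro i hi
      rw [ha i hi]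
      simp only [dif_pos hi]
  -- girth
  have hcyc : FCyc S.coe r (fun i => if h : i < r then
      (⟨Sum.inl ⟨i, by omega⟩, by
        have h0 : C.Adj ⟨i, by omega⟩ ⟨(i + 1) % r, (Nat.mod_lt _ (by omega)).trans_le hrk⟩ := by
          have := FCyc.step (cg_fcyc (k := k) (by omega) hrk
            (fun i => if h : i < k then ⟨i, h⟩ else ⟨0, by omega⟩)
            (fun i hi => by simp only [dif_pos (show i < k by omega)])) i h
          simp only [dif_pos (show i < k by omega),
            dif_pos (show (i + 1) % r < k from (Nat.mod_lt _ (by omega)).trans_le hrk)] at this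
          exact this
        exact S.edge_vert (hedge _ _ h0)⟩ : S.verts)
      else ⟨Sum.inl ⟨0, by omega⟩, S.edge_vert (hedge ⟨0, by omega⟩ ⟨1, by omega⟩
        ⟨by simp [Fin.ext_iff], Or.inl ⟨rfl, by show 1 < r; omega⟩⟩)⟩) := by
    have hb := cg_fcyc (k := k) (r := r) (by omega) hrk
            (fun i => if h : i < k then ⟨i, h⟩ else ⟨0, by omega⟩)
            (fun i hi => by simp only [dif_pos (show i < k by omega)])
    refine ⟨by omega, ?_, ?_, ?_⟩
    · intro i hi j hj hij
      simp only [dif_pos hi, dif_pos hj, Subtype.mk.injEq, Sum.inl.injEq, Fin.mk.injEq] at hij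
      exact hij
    · intro i hi
      have h1 := hb.adj i hi
      simp only [dif_pos (show i < k by omega), dif_pos (show i + 1 < k by omega)] at h1
      simp only [dif_pos (show i < r by omega), dif_pos hi]
      exact hedge _ _ h1
    · have h1 := hb.close
      simp only [dif_pos (show r - 1 < k by omega), dif_pos (show 0 < k by omega)] at h1
      simp only [dif_pos (show r - 1 < r by omega), dif_pos (show 0 < r by omega)]
      exact hedge _ _ h1
  obtain ⟨u, w, hw, hwl⟩ := walk_of_fcyc hcyc
  have hlower : ∀ (a : S.verts) (w : S.coe.Walk a a), w.IsCycle → r ≤ w.length := by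
    intro a w hw
    by_contra h
    push Not at h
    obtain ⟨a', ha', -⟩ := hshort _ _ (fcyc_of_walk w hw) (by omega)
    have := cg_long ha'
    omega
  have hgirth : S.coe.girth = r := by
    have h1 : S.coe.egirth = (r : ℕ∞) := by
      apply le_antisymm
      · have := SimpleGraph.egirth_le_length hw
        rwa [hwl] at this
      · rw [SimpleGraph.le_egirth]
        intro a w hw
        exact_mod_cast hlower a w hw
    rw [SimpleGraph.girth, h1]
    rfl
  -- the orientation
  refine ⟨S.verts, inferInstance, S.coe, hcrit, hgirth,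
    fun u v => S.coe.Adj u v ∧ κ u.1 < κ v.1, ?_, ?_, ?_, ?_⟩
  · intro u v
    constructor
    · intro h
      have hne : κ u.1 ≠ κ v.1 := κ.valid (S.adj_sub h)
      rcases lt_or_gt_of_ne hne with h1 | h1
      · exact Or.inl ⟨h, h1⟩
      · exact Or.inr ⟨h.symm, h1⟩
    · rintro (h | h)
      · exact h.1
      · exact h.1.symm
  · intro u v h h'
    exact lt_asymm h.2 h'.2
  · intro v hv
    have key : ∀ a b : S.verts, Relation.TransGen (fun u v => S.coe.Adj u v ∧ κ u.1 < κ v.1) a b →
        κ a.1 < κ b.1 := by
      intro a b h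
      induction h with
      | single h => exact h.2
      | tail _ h ih => exact ih.trans h.2
    exact lt_irrefl _ (key v v hv)
  · intro t p ht hp h0t
    exfalso
    have hmono : ∀ i j, i < j → j ≤ t → κ (p i).1 < κ (p j).1 := by
      intro i j hij
      induction j with
      | zero => omega
      | succ j ih =>
        intro hj
        have h1 := (hp j (by omega)).2
        rcases Nat.lt_or_ge i j with h2 | h2
        · exact (ih h2 (by omega)).trans h1
        · have : i = j := by omega
          rw [this]; exact h1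
    have hval : ∀ i ≤ t, i ≤ (κ (p i).1).val := by
      intro i
      induction i with
      | zero => intro _; exact Nat.zero_le _
      | succ i ih =>
        intro hi
        have h1 : (κ (p i).1).val < (κ (p (i + 1)).1).val := hmono i (i + 1) (by omega) hi
        have := ih (by omega)
        omega
    have htk : t + 1 ≤ k := by
      have h1 := hval t le_rfl
      have h2 := (κ (p t).1).isLt
      omega
    have hf : FCyc S.coe (t + 1) p := by
      refine ⟨by omega, ?_, ?_, ?_⟩
      · intro i hi j hj hij
        rcases lt_trichotomy i j with h | h | h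
        · have := hmono i j h (by omega)
          rw [hij] at this
          exact absurd this (lt_irrefl _)
        · exact h
        · have := hmono j i h (by omega)
          rw [hij] at this
          exact absurd this (lt_irrefl _)
      · intro i hi
        exact (hp i (by omega)).1
      · exact h0t.1.symm
    obtain ⟨a, ha, hpa⟩ := hshort _ _ hf htk
    have hrt := cg_long ha
    have hσp : ∀ i ≤ t, κ (p i).1 = σ (a i) := by
      intro i hi
      rw [hpa i (by omega), hκ]
    have s01 := hmono 0 1 (by omega) (by omega)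
    have s12 := hmono 1 2 (by omega) (by omega)
    have s23 := hmono 2 3 (by omega) (by omega)
    rw [hσp 0 (by omega), hσp 1 (by omega)] at s01
    rw [hσp 1 (by omega), hσp 2 (by omega)] at s12
    rw [hσp 2 (by omega), hσp 3 (by omega)] at s23
    have e1 := hσ' (a 0) (a 1) (a 2) (ha.adj 0 (by omega)) (ha.adj 1 (by omega)) s01 s12
    have e2 := hσ' (a 1) (a 2) (a 3) (ha.adj 1 (by omega)) (ha.adj 2 (by omega)) s12 s23
    have := ha.inj 1 (by omega) 2 (by omega) (Fin.ext (by omega))
    omega

end Pool.Agent.Results.MP_2d3ccd_co.CriticalOfGirthAtMostK
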