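import Pool.Agent.W207.ST.Final

/-!
# MP_2d3ccd_co: semi-transitive graphs with chromatic number `k` and girth `k`

Q1 asks whether for every `k ≥ 5` there is a semi-transitive graph with chromatic number exactly
`k` and girth exactly `k`.  The answer is yes; more generally, for all `k ≥ 3` and `g ≥ 4` there is
a finite connected semi-transitive graph with chromatic number exactly `k` and girth exactly `g`.

Proof.  By Erdős's theorem (proved in `Pool.Agent.W207.ST.Erdos` by counting) there is a graph
which is not `(k-1)`-colourable and has no cycle of length at most `max(k,g)`; passing to a minimal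
set of vertices and to a component, we get such a graph `H` which is connected and has chromatic
number exactly `k`.  Take an edge `ab` of `H`, where `a` has the smaller colour, and attach a path
`a, c_0, ..., c_{g-3}, b` with `g-2 ≥ 2` new vertices.  Orient the edges of `H` towards the larger
colour, and make the new vertices alternately sinks and sources, `c_0` being a sink.  The orientation
has no shortcut: a shortcut is a directed path closed by an edge; inside `H` it would give a cycle
of length at most `k`, and otherwise the cycle contains all the new vertices, each of which is then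
an end of the path, so `g = 4`, the path goes from `c_1` through `b`, ..., `a` to `c_0`, and colours
decrease on the way from `b` to `a`, a contradiction.
-/

set_option autoImplicit false

namespace Pool.Agent.Results.MP_2d3ccd_co.SemiTransitiveGirth

/-- `D` is an orientation of the simple graph `G`: every arc of `D` is along an edge of `G`, every
edge of `G` has an arc, and no edge is directed both ways. -/
structure IsOrientation {V : Type} (G : SimpleGraph V) (D : V → V → Prop) : Prop where
  adj : ∀ u v, D u v → G.Adj u v
  arc : ∀ u v, G.Adj u v → D u v ∨ D v u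
  asymm : ∀ u v, D u v → ¬ D v u

/-- `D` is acyclic: no vertex can be reached from itself by a nontrivial directed walk. -/
def IsAcyclicDigraph {V : Type} (D : V → V → Prop) : Prop :=
  ∀ v, ¬ Relation.TransGen D v v

/-- `D` is a semi-transitive orientation of `G`: it is an acyclic orientation and for every directed
path `v 0 → v 1 → ⋯ → v t` with `t ≥ 2` such that `v 0 → v t`, all arcs `v i → v j` with
`0 ≤ i < j ≤ t` are present.  (In an acyclic orientation every directed walk is a path.) -/
structure IsSemiTransitiveOrientation {V : Type} (G : SimpleGraph V) (D : V → V → Prop) :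
    Prop where
  orientation : IsOrientation G D
  acyclic : IsAcyclicDigraph D
  shortcut_free : ∀ (t : ℕ) (v : ℕ → V), 2 ≤ t → (∀ i, i < t → D (v i) (v (i + 1))) →
    D (v 0) (v t) → ∀ i j, i < j → j ≤ t → D (v i) (v j)

/-- `G` is semi-transitive: it admits a semi-transitive orientation. -/
def IsSemiTransitive {V : Type} (G : SimpleGraph V) : Prop :=
  ∃ D : V → V → Prop, IsSemiTransitiveOrientation G D

open SimpleGraph Pool.Agent.W207.ST

/-- For all `k ≥ 3` and `g ≥ 4` there is a finite connected semi-transitive graph with chromatic
number exactly `k` and girth exactly `g`.  With `g = k ≥ 5` this answers Q1 affirmatively. -/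
theorem result : ∀ k g : ℕ, 3 ≤ k → 4 ≤ g →
    ∃ (V : Type) (_ : Fintype V) (G : SimpleGraph V),
      G.Connected ∧ IsSemiTransitive G ∧ G.chromaticNumber = k ∧ G.girth = g := by
  classical
  intro k' g hk' hg
  obtain ⟨k, rfl⟩ : ∃ k, k' = k + 1 := ⟨k' - 1, by omega⟩
  obtain ⟨p, rfl⟩ : ∃ p, g = p + 3 := ⟨g - 3, by omega⟩
  obtain ⟨W, hW, H, hHc, hcol, hncol, hcyc⟩ := crit k (max p k)
  obtain ⟨C, hC⟩ := (colorable_iff_exists_bdd_nat_coloring (k + 1)).1 hcol
  -- an edge
  obtain ⟨a, b, hab, hCab⟩ : ∃ a b, H.Adj a b ∧ C a < C b := by
    by_contra hcon
    push Not at hcon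
    apply hncol
    rw [colorable_iff_exists_bdd_nat_coloring]
    refine ⟨Coloring.mk (fun _ => 0) ?_, ?_⟩
    · intro u v huv
      exfalso
      have h1 := hcon u v huv
      have h2 := hcon v u huv.symm
      exact C.valid huv (le_antisymm h2 h1)
    · intro v
      change 0 < k
      omega
  refine ⟨W ⊕ Fin (p + 1), inferInstance, ear H a b (p + 1), ear_connected hHc, ?_, ?_, ?_⟩
  · refine ⟨dir (ear H a b (p + 1)) (ht C k), ⟨fun u v h => h.1, ?_, ?_⟩, ?_, ?_⟩
    · intro u v huv
      rcases lt_or_gt_of_ne (ht_ne C hC huv) with h | h
      · exact Or.inl ⟨huv, h⟩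
      · exact Or.inr ⟨huv.symm, h⟩
    · intro u v h1 h2
      exact lt_asymm h1.2 h2.2
    · intro v hv
      have key : ∀ x y, Relation.TransGen (dir (ear H a b (p + 1)) (ht C k)) x y →
          ht C k x < ht C k y := by
        intro x y hxy
        induction hxy with
        | single h => exact h.2
        | tail _ h ih => exact ih.trans h.2
      exact lt_irrefl _ (key v v hv)
    · intro t v ht2 hv hvt
      exact (no_shortcut (by omega) C hC hCab ((Nat.sub_le _ _).trans (le_max_right p k))
        (by omega) hcyc ht2 hv hvt).elim
  · exact ear_chrom (by omega) hab hcol hncol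
  · exact ear_girth hab (le_max_left p k) hcyc

end Pool.Agent.Results.MP_2d3ccd_co.SemiTransitiveGirth
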